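import Pool.Agent.J4H47.CG.Main

set_option autoImplicit false

/-!
# The nef cone conjecture for `(A × F) / G` follows from the conjecture for `F`

`A = V / Λ` is an abelian variety of any dimension and `F` a normal projective variety, `ℚ`-factorial
with free class group (so that `F` has no irregularity). Let `Ψ` be a group of automorphisms of `F`,
possibly infinite, of which only finitely many elements act trivially on `Cl(F)`, and suppose that the
nef cone conjecture holds for `F` and `Ψ` in its weak form: some rational polyhedral cone in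
`Nef^e(F) = Nef(F) ∩ Eff(F)` has translates which cover `Nef^e(F)`. For instance `F` may be a K3
surface, or any fibre of the Albanese map for which the conjecture is known.

Let `X = (A × F) / G`, where a finite group `G` acts diagonally, through affine transformations of `A`
and elements of `Ψ`; the action may have fixed points and fixed divisors. Let `X → Z` be a fibration
given by a linear map `π : V → W`, where `Z = W / Γ'` is a quotient of an abelian variety, and let `Δ`
be an effective divisor on `X` with real coefficients which is preserved by `Ψ`, such that `K_X + Δ` is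
numerically trivial over `Z`. For `W = 0` the variety `Z` is a point, and this is the absolute case;
if `G` contains no reflections of `A`, then `Δ` comes from a divisor `Δ_F` of `F`, and `Ψ` is any
subgroup of `Aut(F, Δ_F)`.

The theorem says that there is a rational polyhedral cone in the cone `Nef^e(X/Z)` of nef and effective
classes which is a fundamental domain for the action of `Aut(X/Z, Δ)` on this cone, even a fundamental
domain for every group of linear transformations which preserves the integral classes and
`Nef^e(X/Z)` and contains the pullbacks by the automorphisms of `X` over `Z` which preserve `Δ` and are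
given by pairs `(f, ψ)`, `f` an affine transformation of `V` and `ψ ∈ Ψ`; and that `Nef^e(X/Z)` is equal
to `Nef^+(X/Z)`, the convex hull of the rational nef classes.

So the nef cone conjecture for these `X` is reduced to the fibre `F` of irregularity zero. The proof:
the classes of `X` are pairs of an invariant hermitian form and a `G`-invariant class of `F`. The
invariant part of the nef cone of `F` is covered by the translates of finitely many classes under the
centraliser of `G` in `Ψ` (only finitely many conjugates of `G` stabilise an interior point of the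
given polyhedral cone), the elements of the centraliser lift to automorphisms of `X`, and the rational
boundary points are covered too, because only finitely many translates of a polyhedral cone meet the
interior of another one. The forms are treated by the reduction theory of the starting files.

`IsFibre`, `HoldsF`, `nefConeF`, `effConeF`, `IsAction`, `AffG`, `hat`, `NormalizesP`, `FixedP` and
`IsPullbackP` are defined in `Pool.Agent.J4H47.CG.Defs`; `Cl`, `Grp`, `base`, `IsQuotient`, `Sheaf`,
`EffDiv`, `NumTrivial`, `N1`, `integral`, `effective`, `semiample`, `nefCone` and `effCone` in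
`Pool.Agent.X324.CF.Defs`; `IsTorusQuotient` in `Pool.Agent.W594.SYZ.Defs2`; `IsPositiveForm` in
`Pool.Agent.W594.SYZ.TQDefs`; `IsFibration` in `Pool.Agent.TH735.AQ.Defs`; `LinGrp`, `Preserves` and `IsFundDomain` in `Pool.Agent.Y167.Stm`; `cone` in `Pool.Agent.Y167.ConeDef`.
-/

namespace Pool.Agent.Results.MP_9f99c5_ag.AlbaneseFibres

open Pool.Agent.W594.SYZ2 Pool.Agent.TH735.AQ Pool.Agent.X324.CF Pool.Agent.J4H47.CG
open Pool.Agent.Y167 (cone)
open Pool.Agent.Y167.CC (LinGrp Preserves IsFundDomain)

/-- The cone `Nef^e(X/Z)` of nef and effective classes. -/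
def nefEff {V E R : Type*} [NormedAddCommGroup V] [NormedSpace ℂ V] [NormedAddCommGroup E]
    [NormedSpace ℂ E] [CommRing R] [Algebra ℂ R] {ρ : ℕ} (𝒜 : Cl ρ → Submodule ℂ R) (u : Cl ρ)
    (Γ : Grp V R) (j : E →ₗ[ℂ] V) : Set (N1 𝒜 Γ j) := nefCone 𝒜 Γ j u ∩ effCone 𝒜 Γ j

/-- The automorphism of `X` given by the affine transformation `f` of `V` and any automorphism of `F`
is an automorphism over `Z = W / Γ'`. -/
def Over {V W : Type*} [NormedAddCommGroup V] [NormedSpace ℂ V] [NormedAddCommGroup W]
    [NormedSpace ℂ W] (Γ' : AffG W) (π : V →ₗ[ℂ] W) (f : V ≃ᵃ[ℂ] V) : Prop :=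
  ∃ δ ∈ Γ', ∀ v, π (f v) = δ (π v)

/-- `𝒢` is a group of linear automorphisms of `N^1(X/Z)` which preserves the integral classes and the
cone of nef and effective classes, and which contains the pullbacks by all automorphisms of `X` over
`Z` which map `Δ` to itself and are given by a pair `(f, ψ)` with `ψ ∈ Ψ`. The image of
`Aut(X/Z, Δ)` has these properties, also if `Aut(X/Z, Δ)` is defined with the support of `Δ`. -/
structure IsAutGroup {V W E R : Type*} [NormedAddCommGroup V] [NormedSpace ℂ V]
    [NormedAddCommGroup W] [NormedSpace ℂ W] [NormedAddCommGroup E] [NormedSpace ℂ E]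
    [CommRing R] [Algebra ℂ R] {ρ : ℕ} {𝒜 : Cl ρ → Submodule ℂ R} (u : Cl ρ)
    (Ψ : Subgroup (R ≃ₐ[ℂ] R)) {Γ : Grp V R} (Γ' : AffG W) (π : V →ₗ[ℂ] W) {j : E →ₗ[ℂ] V}
    {ι : Type*} (Δ : EffDiv 𝒜 Γ ι) (𝒢 : LinGrp (N1 𝒜 Γ j)) : Prop where
  int : Preserves 𝒢 (integral 𝒜 Γ j)
  nef_eff : Preserves 𝒢 (nefEff 𝒜 u Γ j)
  pull : ∀ g : Elt V R, g.2 ∈ Ψ → NormalizesP 𝒜 Γ g → Over Γ' π g.1 → FixedP Δ g →
    ∀ G, IsPullbackP g G → G ∈ 𝒢

/-- Let `F` be a variety with ample class `u` and a group `Ψ` of automorphisms, such that the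
translates under `Ψ` of the cone spanned by the classes `w i` cover the nef effective cone of `F`. Let
`X = (V × F) / Γ` be a projective quotient, `X → Z = W / Γ'` a fibration and `Δ` an effective divisor
with real coefficients on `X`, preserved by the elements of `Ψ` which act on `X`, such that `K_X + Δ`
is numerically trivial over `Z`. Here `E` is the kernel of `π`, embedded by `j`. There is a finite set
`S` of integral classes such that the cone spanned by `S` is contained in the cone `Nef^e(X/Z)` of nef
and effective classes and is a fundamental domain for the action of `𝒢` on this cone; and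
`Nef^e(X/Z)` is the convex hull of the rational nef classes. -/
theorem result {V W E R : Type*} [NormedAddCommGroup V] [NormedSpace ℂ V] [FiniteDimensional ℂ V]
    [NormedAddCommGroup W] [NormedSpace ℂ W] [FiniteDimensional ℂ W]
    [NormedAddCommGroup E] [NormedSpace ℂ E] [FiniteDimensional ℂ E]
    [CommRing R] [IsDomain R] [Algebra ℂ R] {ρ n : ℕ}
    (𝒜 : Cl ρ → Submodule ℂ R) [GradedAlgebra 𝒜] (u : Cl ρ) (Ψ : Subgroup (R ≃ₐ[ℂ] R))
    (hF : IsFibre 𝒜 u Ψ) (w : Fin n → Cl ρ) (hw : HoldsF 𝒜 u Ψ w)
    (Γ : Grp V R) (hX : IsQuotient 𝒜 u Γ) (hΓ : ∀ γ ∈ Γ, γ.2 ∈ Ψ)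
    (hproj : ∃ (L : Sheaf 𝒜 Γ) (H : V → V → ℂ), L.IsChern H ∧ IsPositiveForm H)
    (Γ' : AffG W) (π : V →ₗ[ℂ] W) (hπ : IsFibration (base Γ) Γ' π)
    (j : E →ₗ[ℂ] V) (hj : Function.Injective j) (hjr : LinearMap.range j = LinearMap.ker π)
    {ι : Type*} [Fintype ι] (Δ : EffDiv 𝒜 Γ ι) (hΔ : NumTrivial Δ j)
    (hΨ : ∀ ψ ∈ Ψ, NormalizesP 𝒜 Γ (1, ψ) → FixedP Δ (1, ψ))
    (𝒢 : LinGrp (N1 𝒜 Γ j)) (h𝒢 : IsAutGroup u Ψ Γ' π Δ 𝒢) :
    (∃ S : Finset (N1 𝒜 Γ j), ↑S ⊆ integral 𝒜 Γ j ∧ cone S ⊆ nefEff 𝒜 u Γ j ∧
      IsFundDomain 𝒢 (nefEff 𝒜 u Γ j) (cone S)) ∧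
    nefEff 𝒜 u Γ j = convexHull ℝ (nefCone 𝒜 Γ j u ∩
      {a | ∃ m : ℕ, 0 < m ∧ (m : ℝ) • a ∈ integral 𝒜 Γ j}) :=
  final hF hw hX hΓ hproj hπ hj hjr Δ hΔ hΨ 𝒢 h𝒢.int h𝒢.nef_eff h𝒢.pull

end Pool.Agent.Results.MP_9f99c5_ag.AlbaneseFibres
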